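import Pool.Agent.H39.OD.Targets
import Pool.Agent.H48.TOH.MDH

/-!
# Board `odp_modules`, row WIT: a configuration is congruent to the model
-/

set_option linter.unusedSimpArgs false

namespace Pool.Agent.H99.OD

open Pool.Agent.H57.CP Pool.Agent.H39.TO Pool.Agent.H39.OD Pool.Agent.H48.TOH

/-- the linear map of a frame -/
noncomputable def frm (e1 e2 e3 v : V4) : V4 →ₗ[ℝ] V4 where
  toFun x := x 0 • e1 + x 1 • e2 + x 2 • e3 + x 3 • v
  map_add' x y := by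
    ext i
    simp only [Pi.add_apply, Pi.smul_apply, smul_eq_mul]
    ring
  map_smul' r x := by
    ext i
    simp only [Pi.add_apply, Pi.smul_apply, smul_eq_mul, RingHom.id_apply]
    ring

theorem frm_apply (e1 e2 e3 v x : V4) :
    frm e1 e2 e3 v x = x 0 • e1 + x 1 • e2 + x 2 • e3 + x 3 • v := rfl

/-- orthonormal frames -/
structure Onf (e1 e2 e3 v : V4) : Prop where
  h11 : mk e1 e1 = -1
  h22 : mk e2 e2 = -1
  h33 : mk e3 e3 = -1
  hvv : mk v v = 1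
  h12 : mk e1 e2 = 0
  h13 : mk e1 e3 = 0
  h23 : mk e2 e3 = 0
  h1v : mk e1 v = 0
  h2v : mk e2 v = 0
  h3v : mk e3 v = 0

theorem frm_mk {e1 e2 e3 v : V4} (H : Onf e1 e2 e3 v) (x y : V4) :
    mk (frm e1 e2 e3 v x) (frm e1 e2 e3 v y) = mk x y := by
  have h21 : mk e2 e1 = 0 := by rw [mk_comm, H.h12]
  have h31 : mk e3 e1 = 0 := by rw [mk_comm, H.h13]
  have h32 : mk e3 e2 = 0 := by rw [mk_comm, H.h23]
  have hv1 : mk v e1 = 0 := by rw [mk_comm, H.h1v]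
  have hv2 : mk v e2 = 0 := by rw [mk_comm, H.h2v]
  have hv3 : mk v e3 = 0 := by rw [mk_comm, H.h3v]
  rw [frm_apply, frm_apply]
  simp only [mk_add_left, mk_add_right, mk_smul_left, mk_smul_right, H.h11, H.h22, H.h33, H.hvv,
    H.h12, H.h13, H.h23, H.h1v, H.h2v, H.h3v, h21, h31, h32, hv1, hv2, hv3]
  unfold mk
  ring

theorem frm_surj {e1 e2 e3 v : V4} (H : Onf e1 e2 e3 v) : Function.Surjective (frm e1 e2 e3 v) := by
  apply LinearMap.surjective_of_injective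
  rw [injective_iff_map_eq_zero]
  intro x hx
  apply mk_zero_all
  intro y
  rw [← frm_mk H x y, hx]
  simp [mk]

/-- the time coordinate -/
theorem time_pos (a v : V4) (ha : mk a a = 1) (hv : mk v v = 1) (hv3 : 0 < v 3) (h : 0 < mk a v) :
    0 < a 3 := by
  by_contra hcon
  push Not at hcon
  have h1 : a 0 ^ 2 + a 1 ^ 2 + a 2 ^ 2 < a 3 ^ 2 := by
    simp only [mk] at ha; nlinarith
  have h2 : v 0 ^ 2 + v 1 ^ 2 + v 2 ^ 2 < v 3 ^ 2 := by
    simp only [mk] at hv; nlinarith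
  have h3 : (a 0 * v 0 + a 1 * v 1 + a 2 * v 2) ^ 2 < (a 3 * v 3) ^ 2 := by
    have h4 : (a 0 * v 0 + a 1 * v 1 + a 2 * v 2) ^ 2 ≤
        (a 0 ^ 2 + a 1 ^ 2 + a 2 ^ 2) * (v 0 ^ 2 + v 1 ^ 2 + v 2 ^ 2) := by
      nlinarith [sq_nonneg (a 0 * v 1 - a 1 * v 0), sq_nonneg (a 0 * v 2 - a 2 * v 0),
        sq_nonneg (a 1 * v 2 - a 2 * v 1)]
    have h5 : (a 0 ^ 2 + a 1 ^ 2 + a 2 ^ 2) * (v 0 ^ 2 + v 1 ^ 2 + v 2 ^ 2) <
        a 3 ^ 2 * v 3 ^ 2 := mul_lt_mul'' h1 h2 (by positivity) (by positivity)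
    nlinarith
  have h6 : a 3 * v 3 ≤ 0 := mul_nonpos_of_nonpos_of_nonneg hcon hv3.le
  simp only [mk] at h
  have h7 : a 0 * v 0 + a 1 * v 1 + a 2 * v 2 < a 3 * v 3 := by linarith
  nlinarith

theorem pf_WIT (hMKI : T_MKI) : T_WIT := by
  intro A B D v n0 n1 n2 hD H
  obtain ⟨h, hh⟩ : ∃ h : ℝ, h = -(mk v.1 n0) := ⟨_, rfl⟩
  rw [← hh]
  have hvv : mk v.1 v.1 = 1 := v.2.1
  have hD1 : 0 < 1 - D ^ 2 := by linarith
  obtain ⟨s, hs⟩ : ∃ s : ℝ, s = Real.sqrt (1 - D ^ 2) := ⟨_, rfl⟩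
  have hs0 : 0 < s := by rw [hs]; exact Real.sqrt_pos.2 hD1
  have hs2 : s ^ 2 = 1 - D ^ 2 := by rw [hs]; exact Real.sq_sqrt hD1.le
  have hs3 : s * s⁻¹ = 1 := mul_inv_cancel₀ hs0.ne'
  have hn21 : mk n2 n1 = D := by rw [mk_comm, H.d]
  -- the second vector of the frame
  obtain ⟨e2, he2⟩ : ∃ e2 : V4, e2 = s⁻¹ • (n2 + D • n1) := ⟨_, rfl⟩
  have h12 : mk n1 e2 = 0 := by
    rw [he2, mk_smul_right, mk_add_right, mk_smul_right, H.d, H.u1]; ring
  have h22 : mk e2 e2 = -1 := by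
    rw [he2, mk_smul_left, mk_smul_right, mk_add_left, mk_add_right, mk_add_right, mk_smul_left,
      mk_smul_left, mk_smul_right, mk_smul_right, H.d, hn21, H.u1, H.u2]
    have h4 : s⁻¹ ^ 2 * s ^ 2 = 1 := by rw [← mul_pow, mul_comm, hs3]; norm_num
    rw [hs2] at h4
    linear_combination -h4
  have h1v : mk n1 v.1 = 0 := by rw [mk_comm, H.v1]
  have h2v : mk e2 v.1 = 0 := by
    rw [he2, mk_smul_left, mk_add_left, mk_smul_left, mk_comm n2, mk_comm n1, H.v1, H.v2]; ring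
  -- the third vector of the frame
  have hW : mk (W v.1 n1 e2) (W v.1 n1 e2) = -1 := by
    rw [W_W, hvv, H.u1, h22, h12, H.v1, mk_comm v.1 e2, h2v]; norm_num
  obtain ⟨e3, h33, h3v, h31, h32, h30⟩ : ∃ e3 : V4, mk e3 e3 = -1 ∧ mk e3 v.1 = 0 ∧
      mk e3 n1 = 0 ∧ mk e3 e2 = 0 ∧ mk e3 n0 ≤ 0 := by
    rcases le_total (mk (W v.1 n1 e2) n0) 0 with h0 | h0
    · exact ⟨W v.1 n1 e2, hW, W_a _ _ _, W_b _ _ _, W_c _ _ _, h0⟩
    · refine ⟨(-1 : ℝ) • W v.1 n1 e2, ?_, ?_, ?_, ?_, ?_⟩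
      · rw [mk_smul_left, mk_smul_right, hW]; norm_num
      · rw [mk_smul_left, W_a]; norm_num
      · rw [mk_smul_left, W_b]; norm_num
      · rw [mk_smul_left, W_c]; norm_num
      · rw [mk_smul_left]; linarith
  have HO : Onf n1 e2 e3 v.1 := ⟨H.u1, h22, h33, hvv, h12, by rw [mk_comm, h31],
    by rw [mk_comm, h32], h1v, h2v, h3v⟩
  obtain ⟨G, hG⟩ : ∃ G : V4 →ₗ[ℝ] V4, G = frm n1 e2 e3 v.1 := ⟨_, rfl⟩
  have hGmk : ∀ x y, mk (G x) (G y) = mk x y := fun x y => by rw [hG]; exact frm_mk HO x y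
  have hGa : ∀ x, G x = x 0 • n1 + x 1 • e2 + x 2 • e3 + x 3 • v.1 := fun x => by
    rw [hG]; exact frm_apply _ _ _ _ x
  -- coordinates of the first normal
  obtain ⟨c, hc⟩ : ∃ c, G c = n0 := by rw [hG]; exact frm_surj HO n0
  have g1 : mk (G c) n1 = -c 0 := by
    rw [hGa, mk_add_left, mk_add_left, mk_add_left, mk_smul_left, mk_smul_left, mk_smul_left,
      mk_smul_left, H.u1, mk_comm e2, h12, h31, H.v1]; ring
  have g2 : mk (G c) e2 = -c 1 := by
    rw [hGa, mk_add_left, mk_add_left, mk_add_left, mk_smul_left, mk_smul_left, mk_smul_left,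
      mk_smul_left, h12, h22, h32, mk_comm v.1, h2v]; ring
  have g3 : mk (G c) e3 = -c 2 := by
    rw [hGa, mk_add_left, mk_add_left, mk_add_left, mk_smul_left, mk_smul_left, mk_smul_left,
      mk_smul_left, mk_comm n1, h31, mk_comm e2, h32, h33, mk_comm v.1, h3v]; ring
  have g4 : mk (G c) v.1 = c 3 := by
    rw [hGa, mk_add_left, mk_add_left, mk_add_left, mk_smul_left, mk_smul_left, mk_smul_left,
      mk_smul_left, h1v, h2v, h3v, hvv]; ring
  rw [hc] at g1 g2 g3 g4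
  have c0 : c 0 = -A := by rw [H.a] at g1; linarith
  have c1 : c 1 = -((B + A * D) / s) := by
    have : mk n0 e2 = (B + A * D) / s := by
      rw [he2, mk_smul_right, mk_add_right, mk_smul_right, H.a, H.b, div_eq_inv_mul]; ring
    rw [this] at g2; linarith
  have c3 : c 3 = -h := by rw [hh, ← g4, mk_comm]; ring
  have c2n : 0 ≤ c 2 := by rw [mk_comm] at h30; linarith
  have cc : mk c c = -1 := by rw [← hGmk c c, hc, H.u0]
  have hz : z2 A B D h = c 2 ^ 2 := by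
    unfold z2
    have h5 : (B + A * D) ^ 2 / (1 - D ^ 2) = ((B + A * D) / s) ^ 2 := by
      rw [← hs2, div_pow]
    rw [h5]
    unfold mk at cc
    rw [c0, c1, c3] at cc
    linarith
  have hzs : Real.sqrt (z2 A B D h) = c 2 := by rw [hz]; exact Real.sqrt_sq c2n
  refine ⟨by rw [hz]; positivity, ?_⟩
  have hGo : G o.1 = v.1 := by
    have o0 : o.1 0 = 0 := rfl
    have o1 : o.1 1 = 0 := rfl
    have o2 : o.1 2 = 0 := rfl
    have o3 : o.1 3 = 1 := rfl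
    rw [hGa, o0, o1, o2, o3, zero_smul, zero_smul, zero_smul, one_smul]
    simp
  have hLor : Lor G := by
    refine ⟨hGmk, fun x => ?_⟩
    refine time_pos (G x.1) v.1 (by rw [hGmk]; exact x.2.1) hvv v.2.2 ?_
    rw [← hGo, hGmk]
    have o0 : o.1 0 = 0 := rfl
    have o1 : o.1 1 = 0 := rfl
    have o2 : o.1 2 = 0 := rfl
    have o3 : o.1 3 = 1 := rfl
    unfold mk
    rw [o0, o1, o2, o3]
    have := x.2.2
    linarith
  obtain ⟨g, hg, hE⟩ := hMKI G hLor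
  refine ⟨g, G, hg, hE, hLor, ?_, ?_, ?_, ?_⟩
  · apply Subtype.ext
    rw [← hE o, hGo]
  · have hm : m0 A B D h = c := by
      funext i
      fin_cases i
      · show -A = c 0
        rw [c0]
      · show -((B + A * D) / Real.sqrt (1 - D ^ 2)) = c 1
        rw [← hs, c1]
      · show Real.sqrt (z2 A B D h) = c 2
        exact hzs
      · show -h = c 3
        rw [c3]
    rw [hm, hc]
  · rw [hGa]
    have a0 : m1 0 = 1 := rfl
    have a1 : m1 1 = 0 := rfl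
    have a2 : m1 2 = 0 := rfl
    have a3 : m1 3 = 0 := rfl
    rw [a0, a1, a2, a3, zero_smul, zero_smul, zero_smul, one_smul]
    simp
  · rw [hGa]
    have a0 : m2 D 0 = -D := rfl
    have a1 : m2 D 1 = Real.sqrt (1 - D ^ 2) := rfl
    have a2 : m2 D 2 = 0 := rfl
    have a3 : m2 D 3 = 0 := rfl
    rw [a0, a1, a2, a3, ← hs, he2, zero_smul, zero_smul]
    funext i
    simp only [Pi.add_apply, Pi.smul_apply, smul_eq_mul, Pi.zero_apply]
    linear_combination (n2 i + D * n1 i) * hs3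

end Pool.Agent.H99.OD
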